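import Mathlib
import Pool.Agent.Y268.D3.Stm
import Pool.Agent.H711R2.KG.G1

/-!
Job D3-CB: the compact convex set of forms.
-/

set_option autoImplicit false

open scoped ComplexOrder InnerProductSpace ComplexConjugate
open Finset

noncomputable section

namespace Pool.Agent.Y77.D3

open H759R2.Kad H711R2.KG Y268.D3

variable {B : Type} [CStarAlgebra B] {K : Type} [NormedAddCommGroup K] [InnerProductSpace ℂ K]

/-- the forms before the closure -/
def CB0 (w : B →ₗ[ℂ] (K →L[ℂ] K)) : Set (Form K) :=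
  {q | ∃ (n : ℕ) (g : Fin n → B), IsPart g ∧ q = qf w g}

theorem CB_eq (w : B →ₗ[ℂ] (K →L[ℂ] K)) : CB w = closure (CB0 w) := rfl

omit [NormedAddCommGroup K] [InnerProductSpace ℂ K] in
theorem eval_cont (ξ η : K) : Continuous fun q : Form K => q ξ η :=
  (continuous_apply η).comp (continuous_apply ξ)

/-- families indexed by any finite type -/
theorem mem_CB0 (w : B →ₗ[ℂ] (K →L[ℂ] K)) {κ : Type} [Fintype κ] (g : κ → B) (hg : IsPart g) :
    qf w g ∈ CB0 w := by
  classical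
  refine ⟨Fintype.card κ, g ∘ (Fintype.equivFin κ).symm, ?_, ?_⟩
  · unfold IsPart
    constructor
    · rw [← hg.1]
      exact Equiv.sum_comp (Fintype.equivFin κ).symm fun s => star (g s) * g s
    · rw [← hg.2]
      exact Equiv.sum_comp (Fintype.equivFin κ).symm fun s => g s * star (g s)
  · funext ξ η
    unfold qf
    exact (Equiv.sum_comp (Fintype.equivFin κ).symm
      fun s => ⟪w (g s) ξ, w (g s) η⟫_ℂ).symm

/-! ### the bound -/

theorem sum_bound (hgt : St_gt.{0, 0}) [PartialOrder B] [StarOrderedRing B] [CompleteSpace K]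
    (w : B →ₗ[ℂ] (K →L[ℂ] K)) {M : ℝ} {ξ : K} (hM : 0 ≤ M) (h : ∀ b, ‖w b ξ‖ ≤ M * ‖b‖)
    {n : ℕ} (g : Fin n → B) (hg : IsPart g) : ∑ s, ‖w (g s) ξ‖ ^ 2 ≤ 6 * M ^ 2 := by
  have h1 := hgt B K ((ContinuousLinearMap.apply ℂ K ξ : (K →L[ℂ] K) →ₗ[ℂ] K) ∘ₗ w) M hM
    (fun b => h b) (Fin n) g
  rw [hg.1, hg.2] at h1
  have h2 : ‖(1 : B)‖ ≤ 1 := by
    rcases subsingleton_or_nontrivial B with hB | hB
    · rw [Subsingleton.elim (1 : B) 0, norm_zero]
      exact zero_le_one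
    · exact (CStarRing.norm_one (E := B)).le
  have h3 : 3 * M ^ 2 * (‖(1 : B)‖ + ‖(1 : B)‖) ≤ 6 * M ^ 2 := by nlinarith [sq_nonneg M]
  exact h1.trans h3

theorem qf_self (w : B →ₗ[ℂ] (K →L[ℂ] K)) {κ : Type} [Fintype κ] (g : κ → B) (ξ : K) :
    qf w g ξ ξ = ((∑ s, ‖w (g s) ξ‖ ^ 2 : ℝ) : ℂ) := by
  unfold qf
  rw [Complex.ofReal_sum]
  refine Finset.sum_congr rfl fun s _ => ?_
  rw [inner_self_eq_norm_sq_to_K]
  push_cast
  rfl

theorem qf_bd (hgt : St_gt.{0, 0}) [PartialOrder B] [StarOrderedRing B] [CompleteSpace K]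
    (w : B →ₗ[ℂ] (K →L[ℂ] K)) {γ : ℝ} (hγ : 0 ≤ γ) (hw : ∀ b, ‖w b‖ ≤ γ * ‖b‖)
    {n : ℕ} (g : Fin n → B) (hg : IsPart g) (ξ η : K) :
    ‖qf w g ξ η‖ ≤ 6 * γ ^ 2 * ‖ξ‖ * ‖η‖ := by
  have hb : ∀ ζ : K, ∑ s, ‖w (g s) ζ‖ ^ 2 ≤ 6 * (γ * ‖ζ‖) ^ 2 := fun ζ =>
    sum_bound hgt w (by positivity) (fun b => by
      calc ‖w b ζ‖ ≤ ‖w b‖ * ‖ζ‖ := (w b).le_opNorm ζ
        _ ≤ γ * ‖b‖ * ‖ζ‖ := mul_le_mul_of_nonneg_right (hw b) (norm_nonneg _)
        _ = γ * ‖ζ‖ * ‖b‖ := by ring) g hg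
  have h1 : ‖qf w g ξ η‖ ≤ ∑ s, ‖w (g s) ξ‖ * ‖w (g s) η‖ := by
    unfold qf
    exact (norm_sum_le _ _).trans (Finset.sum_le_sum fun s _ => norm_inner_le_norm _ _)
  have h2 : (∑ s, ‖w (g s) ξ‖ * ‖w (g s) η‖) ^ 2 ≤
      (∑ s, ‖w (g s) ξ‖ ^ 2) * ∑ s, ‖w (g s) η‖ ^ 2 := Finset.sum_mul_sq_le_sq_mul_sq _ _ _
  have h3 : (∑ s, ‖w (g s) ξ‖ ^ 2) * ∑ s, ‖w (g s) η‖ ^ 2 ≤
      (6 * (γ * ‖ξ‖) ^ 2) * (6 * (γ * ‖η‖) ^ 2) :=
    mul_le_mul (hb ξ) (hb η) (Finset.sum_nonneg fun s _ => sq_nonneg _) (by positivity)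
  have h4 : (∑ s, ‖w (g s) ξ‖ * ‖w (g s) η‖) ^ 2 ≤ (6 * γ ^ 2 * ‖ξ‖ * ‖η‖) ^ 2 := by
    refine h2.trans (h3.trans (le_of_eq ?_))
    ring
  have h5 : ∑ s, ‖w (g s) ξ‖ * ‖w (g s) η‖ ≤ 6 * γ ^ 2 * ‖ξ‖ * ‖η‖ :=
    (sq_le_sq₀ (Finset.sum_nonneg fun s _ => by positivity) (by positivity)).1 h4
  exact h1.trans h5

theorem qf_form (hgt : St_gt.{0, 0}) [PartialOrder B] [StarOrderedRing B] [CompleteSpace K]
    (w : B →ₗ[ℂ] (K →L[ℂ] K)) {γ : ℝ} (hγ : 0 ≤ γ) (hw : ∀ b, ‖w b‖ ≤ γ * ‖b‖)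
    {n : ℕ} (g : Fin n → B) (hg : IsPart g) : IsForm (qf w g) (6 * γ ^ 2) := by
  refine ⟨?_, ?_, ?_, ?_, qf_bd hgt w hγ hw g hg⟩
  · intro ξ η η'
    unfold qf
    rw [← Finset.sum_add_distrib]
    refine Finset.sum_congr rfl fun s _ => ?_
    rw [map_add, inner_add_right]
  · intro c ξ η
    unfold qf
    rw [Finset.mul_sum]
    refine Finset.sum_congr rfl fun s _ => ?_
    rw [map_smul, inner_smul_right]
  · intro ξ η
    unfold qf
    rw [map_sum]
    refine Finset.sum_congr rfl fun s _ => ?_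
    rw [inner_conj_symm]
  · intro ξ
    rw [qf_self, Complex.ofReal_re]
    exact Finset.sum_nonneg fun s _ => sq_nonneg _

/-- the forms with a bound are a closed set -/
theorem isClosed_form (C : ℝ) : IsClosed {q : Form K | IsForm q C} := by
  have h1 : {q : Form K | IsForm q C} =
      {q | ∀ ξ η η', q ξ (η + η') = q ξ η + q ξ η'} ∩
      ({q | ∀ (c : ℂ) ξ η, q ξ (c • η) = c * q ξ η} ∩
      ({q | ∀ ξ η, q η ξ = conj (q ξ η)} ∩
      ({q | ∀ ξ, 0 ≤ (q ξ ξ).re} ∩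
      {q | ∀ ξ η, ‖q ξ η‖ ≤ C * ‖ξ‖ * ‖η‖}))) := by
    ext q
    constructor
    · intro h
      exact ⟨h.add, h.smul, h.herm, h.pos, h.bd⟩
    · rintro ⟨h1, h2, h3, h4, h5⟩
      exact ⟨h1, h2, h3, h4, h5⟩
  rw [h1]
  refine IsClosed.inter ?_ (IsClosed.inter ?_ (IsClosed.inter ?_ (IsClosed.inter ?_ ?_)))
  · simp only [Set.ofPred_forall]
    exact isClosed_iInter fun ξ => isClosed_iInter fun η => isClosed_iInter fun η' =>
      isClosed_eq (eval_cont _ _) ((eval_cont _ _).add (eval_cont _ _))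
  · simp only [Set.ofPred_forall]
    exact isClosed_iInter fun c => isClosed_iInter fun ξ => isClosed_iInter fun η =>
      isClosed_eq (eval_cont _ _) (continuous_const.mul (eval_cont _ _))
  · simp only [Set.ofPred_forall]
    exact isClosed_iInter fun ξ => isClosed_iInter fun η =>
      isClosed_eq (eval_cont _ _) (Complex.continuous_conj.comp (eval_cont _ _))
  · simp only [Set.ofPred_forall]
    exact isClosed_iInter fun ξ =>
      isClosed_le continuous_const (Complex.continuous_re.comp (eval_cont _ _))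
  · simp only [Set.ofPred_forall]
    exact isClosed_iInter fun ξ => isClosed_iInter fun η =>
      isClosed_le (eval_cont _ _).norm continuous_const

/-- convexity before the closure -/
theorem convex_CB0 (w : B →ₗ[ℂ] (K →L[ℂ] K)) : Convex ℝ (CB0 w) := by
  rintro _ ⟨n, g, hg, rfl⟩ _ ⟨m, g', hg', rfl⟩ a b ha hb hab
  have key : ∀ r : ℝ, 0 ≤ r → ((Real.sqrt r : ℝ) : ℂ) * ((Real.sqrt r : ℝ) : ℂ) = (r : ℂ) := by
    intro r hr
    rw [← Complex.ofReal_mul, Real.mul_self_sqrt hr]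
  set G : Fin n ⊕ Fin m → B := Sum.elim (fun s => ((Real.sqrt a : ℝ) : ℂ) • g s)
    (fun s => ((Real.sqrt b : ℝ) : ℂ) • g' s) with hG
  have hcab : (a : ℂ) + (b : ℂ) = 1 := by rw [← Complex.ofReal_add, hab, Complex.ofReal_one]
  have hGp : IsPart G := by
    unfold IsPart
    constructor
    · rw [Fintype.sum_sum_type]
      simp only [hG, Sum.elim_inl, Sum.elim_inr, star_smul, smul_mul_smul_comm]
      simp only [RCLike.star_def, Complex.conj_ofReal, key a ha, key b hb]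
      rw [← Finset.smul_sum, ← Finset.smul_sum, hg.1, hg'.1, ← add_smul, hcab, one_smul]
    · rw [Fintype.sum_sum_type]
      simp only [hG, Sum.elim_inl, Sum.elim_inr, star_smul, smul_mul_smul_comm]
      simp only [RCLike.star_def, Complex.conj_ofReal, key a ha, key b hb]
      rw [← Finset.smul_sum, ← Finset.smul_sum, hg.2, hg'.2, ← add_smul, hcab, one_smul]
  have heq : a • qf w g + b • qf w g' = qf w G := by
    funext ξ η
    simp only [Pi.add_apply, Pi.smul_apply]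
    unfold qf
    rw [Fintype.sum_sum_type]
    simp only [hG, Sum.elim_inl, Sum.elim_inr, map_smul, smul_apply,
      inner_smul_left, inner_smul_right, Complex.conj_ofReal]
    rw [Complex.real_smul, Complex.real_smul, Finset.mul_sum, Finset.mul_sum]
    congr 1
    · refine Finset.sum_congr rfl fun s _ => ?_
      rw [← mul_assoc, key a ha]
    · refine Finset.sum_congr rfl fun s _ => ?_
      rw [← mul_assoc, key b hb]
  rw [heq]
  exact mem_CB0 w G hGp

theorem act_qf (w : B →ₗ[ℂ] (K →L[ℂ] K)) (hw : IsHom w) {κ : Type} [Fintype κ] (g : κ → B)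
    (v : B) : act w v (qf w g) = qf w (fun s => g s * v) := by
  funext ξ η
  unfold act qf
  refine Finset.sum_congr rfl fun s _ => ?_
  rw [hw.mul]
  rfl

theorem part_mul {κ : Type} [Fintype κ] {g : κ → B} (hg : IsPart g) (v : unitary B) :
    IsPart fun s => g s * (v : B) := by
  constructor
  · have : ∀ s, star (g s * (v : B)) * (g s * (v : B)) =
        star (v : B) * (star (g s) * g s) * (v : B) := by
      intro s
      rw [star_mul]
      simp only [mul_assoc]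
    simp only [this]
    rw [← Finset.sum_mul, ← Finset.mul_sum, hg.1, mul_one]
    exact Unitary.star_mul_self_of_mem v.2
  · have : ∀ s, g s * (v : B) * star (g s * (v : B)) = g s * star (g s) := by
      intro s
      rw [star_mul, mul_assoc, ← mul_assoc (v : B), Unitary.mul_star_self_of_mem v.2, one_mul]
    simp only [this]
    exact hg.2

theorem cb_main (hgt : St_gt.{0, 0}) : S_cb := by
  intro B _ _ _ K _ _ _ w hw γ hγ hwb
  have hform : ∀ q ∈ CB w, IsForm q (6 * γ ^ 2) := by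
    intro q hq
    have h1 : CB w ⊆ {q : Form K | IsForm q (6 * γ ^ 2)} := by
      apply closure_minimal _ (isClosed_form _)
      rintro _ ⟨n, g, hg, rfl⟩
      exact qf_form hgt w hγ hwb g hg
    exact h1 hq
  refine ⟨?_, ?_, ?_, hform, ?_, ?_⟩
  · -- compact
    have h1 : IsCompact {q : Form K | ∀ ξ, q ξ ∈ {f : K → ℂ | ∀ η, f η ∈
        Metric.closedBall (0 : ℂ) (6 * γ ^ 2 * ‖ξ‖ * ‖η‖)}} := by
      apply isCompact_pi_infinite
      intro ξ
      apply isCompact_pi_infinite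
      intro η
      exact isCompact_closedBall _ _
    refine h1.of_isClosed_subset isClosed_closure ?_
    intro q hq ξ η
    rw [mem_closedBall_zero_iff]
    exact (hform q hq).bd ξ η
  · exact (convex_CB0 w).closure
  · refine ⟨qf w (fun _ : Fin 1 => (1 : B)), subset_closure (mem_CB0 w _ ?_)⟩
    unfold IsPart
    simp
  · intro q hq v
    have hcont : Continuous (act w (v : B)) := by
      refine continuous_pi fun ξ => continuous_pi fun η => ?_
      exact eval_cont _ _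
    have hmaps : Set.MapsTo (act w (v : B)) (CB0 w) (CB0 w) := by
      rintro _ ⟨n, g, hg, rfl⟩
      rw [act_qf w hw]
      exact ⟨n, _, part_mul hg v, rfl⟩
    exact hmaps.closure hcont hq
  · intro M ξ hM hMb q hq
    have h1 : CB w ⊆ {q : Form K | (q ξ ξ).re ≤ 6 * M ^ 2} := by
      apply closure_minimal _
        (isClosed_le (Complex.continuous_re.comp (eval_cont _ _)) continuous_const)
      rintro _ ⟨n, g, hg, rfl⟩
      change (qf w g ξ ξ).re ≤ 6 * M ^ 2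
      rw [qf_self, Complex.ofReal_re]
      exact sum_bound hgt w hM hMb g hg
    exact h1 hq

/-- **D3-CB** -/
theorem prove_cb : S_cb := cb_main main_gt

end Pool.Agent.Y77.D3
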